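import Pool.Agent.E8helper2.ZB.Stm9
import Pool.Agent.E8helper38.ZB.Lat

/-!
# Task 641: diagonal matrices and cyclic permutations in groups of matrices
-/

set_option autoImplicit false

namespace Pool.Agent.E8helper35.ZB

open Module Matrix Pool.Agent.E8helper72.ZO Pool.Agent.E8helper2.ZB Pool.Agent.E8helper38.ZB

section perm

variable {n ℓ : ℕ} {σ : Equiv.Perm (Fin n)}

lemma pow_val (hℓ : 0 < ℓ) (h2 : ∀ i : Fin n, i.val < ℓ → (σ i).val = (i.val + 1) % ℓ)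
    (i : Fin n) (hi : i.val < ℓ) (k : ℕ) : ((σ ^ k) i).val = (i.val + k) % ℓ := by
  induction k with
  | zero => simp [Nat.mod_eq_of_lt hi]
  | succ k ih =>
    have h3 : ((σ ^ k) i).val < ℓ := by rw [ih]; exact Nat.mod_lt _ hℓ
    rw [pow_succ', Equiv.Perm.mul_apply, h2 _ h3, ih, Nat.mod_add_mod, add_assoc]

lemma pow_eq_one (hℓ : 0 < ℓ) (h1 : ∀ i : Fin n, ℓ ≤ i.val → σ i = i)
    (h2 : ∀ i : Fin n, i.val < ℓ → (σ i).val = (i.val + 1) % ℓ) : σ ^ ℓ = 1 := by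
  apply Equiv.ext
  intro i
  rcases lt_or_ge i.val ℓ with hi | hi
  · apply Fin.ext
    rw [pow_val hℓ h2 i hi, Nat.add_mod_right, Nat.mod_eq_of_lt hi, Equiv.Perm.one_apply]
  · rw [Equiv.Perm.one_apply]
    exact Equiv.Perm.pow_apply_eq_self_of_apply_eq_self (h1 i hi) ℓ

lemma sign_one (hodd : Odd ℓ) (h1 : ∀ i : Fin n, ℓ ≤ i.val → σ i = i)
    (h2 : ∀ i : Fin n, i.val < ℓ → (σ i).val = (i.val + 1) % ℓ) : Equiv.Perm.sign σ = 1 := by
  have h3 := congrArg Equiv.Perm.sign (pow_eq_one hodd.pos h1 h2)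
  rw [map_pow, map_one] at h3
  rcases Int.units_eq_one_or (Equiv.Perm.sign σ) with h | h
  · exact h
  · rw [h, hodd.neg_one_pow] at h3
    exact absurd h3 (by decide)

lemma inv_fun {F : Type} (f : Fin n → F) (hℓ : 0 < ℓ) (h1 : ∀ i : Fin n, ℓ ≤ i.val → σ i = i)
    (h2 : ∀ i : Fin n, i.val < ℓ → (σ i).val = (i.val + 1) % ℓ)
    (hf : ∀ i j : Fin n, i.val < ℓ → j.val < ℓ → f i = f j) (i : Fin n) : f (σ i) = f i := by
  rcases lt_or_ge i.val ℓ with hi | hi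
  · exact hf _ _ (by rw [h2 i hi]; exact Nat.mod_lt _ hℓ) hi
  · rw [h1 i hi]

end perm

section mat

variable {F : Type} [Ring F] {n : ℕ}

lemma pm_apply (σ : Equiv.Perm (Fin n)) (i j : Fin n) :
    σ.permMatrix F i j = if σ i = j then 1 else 0 := by
  simp [Equiv.Perm.permMatrix, PEquiv.toMatrix_apply, eq_comm]

lemma pm_mem (R : Subring F) (σ : Equiv.Perm (Fin n)) (i j : Fin n) : σ.permMatrix F i j ∈ R := by
  rw [pm_apply]
  split_ifs
  · exact R.one_mem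
  · exact R.zero_mem

lemma pm_form (σ : Equiv.Perm (Fin n)) (f : Fin n → F) (hf : ∀ i, f (σ i) = f i) :
    (σ.permMatrix F)ᵀ * diagonal f * σ.permMatrix F = diagonal f := by
  ext i j
  rw [mul_apply, Finset.sum_eq_single (σ.symm i)]
  · rw [mul_diagonal, transpose_apply, pm_apply, pm_apply, Equiv.apply_symm_apply,
      if_pos rfl, one_mul, diagonal_apply]
    have h1 : f (σ.symm i) = f i := by rw [← hf (σ.symm i), Equiv.apply_symm_apply]
    rw [h1]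
    split_ifs <;> simp
  · intro k _ hk
    rw [mul_diagonal, transpose_apply, pm_apply, if_neg, zero_mul, zero_mul]
    intro h
    apply hk
    rw [← h, Equiv.symm_apply_apply]
  · intro h
    exact absurd (Finset.mem_univ _) h

lemma pm_inv {g : (Matrix (Fin n) (Fin n) F)ˣ} {σ : Equiv.Perm (Fin n)}
    (hg : (g : Matrix (Fin n) (Fin n) F) = σ.permMatrix F) :
    ((g⁻¹ : (Matrix (Fin n) (Fin n) F)ˣ) : Matrix (Fin n) (Fin n) F) = (σ.permMatrix F)ᵀ := by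
  have h1 : (σ.permMatrix F)ᵀ * (g : Matrix (Fin n) (Fin n) F) = 1 := by
    have h2 := pm_form (F := F) σ (fun _ => 1) (fun _ => rfl)
    rw [diagonal_one, Matrix.mul_one] at h2
    rw [hg, h2]
  calc ((g⁻¹ : (Matrix (Fin n) (Fin n) F)ˣ) : Matrix (Fin n) (Fin n) F)
      = ((σ.permMatrix F)ᵀ * (g : Matrix (Fin n) (Fin n) F)) *
        ((g⁻¹ : (Matrix (Fin n) (Fin n) F)ˣ) : Matrix (Fin n) (Fin n) F) := by
          rw [h1, Matrix.one_mul]
    _ = (σ.permMatrix F)ᵀ := by rw [Matrix.mul_assoc, Units.mul_inv, Matrix.mul_one]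

end mat

lemma sog_cyc {F : Type} [CommRing F] (R : Subring F) {n ℓ : ℕ} (f : Fin n → F) (hodd : Odd ℓ)
    (hf : ∀ i j : Fin n, i.val < ℓ → j.val < ℓ → f i = f j) (g : (Matrix (Fin n) (Fin n) F)ˣ)
    (hg : IsCyc ℓ g) : g ∈ SOG R f := by
  obtain ⟨σ, h1, h2, h3⟩ := hg
  refine ⟨⟨fun i j => ?_, fun i j => ?_⟩, ?_, ?_⟩
  · rw [h3]
    exact pm_mem R σ i j
  · rw [pm_inv h3]
    exact pm_mem R σ j i
  · rw [h3]
    exact pm_form σ f (inv_fun f hodd.pos h1 h2 hf)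
  · rw [h3, det_permutation, sign_one hodd h1 h2]
    simp

lemma ug_cyc {F : Type} [Ring F] [StarRing F] (R : Subring F) {n ℓ : ℕ} (h : Fin n → F)
    (hℓ : 0 < ℓ) (hf : ∀ i j : Fin n, i.val < ℓ → j.val < ℓ → h i = h j)
    (g : (Matrix (Fin n) (Fin n) F)ˣ) (hg : IsCyc ℓ g) : g ∈ UG R h := by
  obtain ⟨σ, h1, h2, h3⟩ := hg
  refine ⟨⟨fun i j => ?_, fun i j => ?_⟩, ?_⟩
  · rw [h3]
    exact pm_mem R σ i j
  · rw [pm_inv h3]
    exact pm_mem R σ j i
  · have h4 : (σ.permMatrix F)ᴴ = (σ.permMatrix F)ᵀ := by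
      ext i j
      rw [conjTranspose_apply, transpose_apply, pm_apply]
      split_ifs
      · exact star_one F
      · exact star_zero F
    rw [h3, h4]
    exact pm_form σ h (inv_fun h hℓ h1 h2 hf)

lemma sug_diag {F : Type} [CommRing F] [StarRing F] (R : Subring F) {z : F} {p n : ℕ}
    (h : Fin n → F) (hzR : z ∈ R) (hz : z ^ p = 1) (hzs : star z * z = 1) (hp : 0 < p)
    (g : (Matrix (Fin n) (Fin n) F)ˣ) (d : Fin n → ℕ) (hd : p ∣ ∑ i, d i)
    (hg : (g : Matrix (Fin n) (Fin n) F) = diagonal (fun i => z ^ d i)) : g ∈ SUG R h := by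
  have hpow : ∀ m : ℕ, (z ^ m) ∈ R := fun m => R.pow_mem hzR m
  have h1 : (g : Matrix (Fin n) (Fin n) F) * diagonal (fun i => z ^ ((p - 1) * d i)) = 1 := by
    rw [hg, diagonal_mul_diagonal, ← diagonal_one]
    congr 1
    funext i
    have h2 : z ^ d i * z ^ ((p - 1) * d i) = (z ^ p) ^ d i := by
      rw [← pow_add, ← pow_mul]
      congr 1
      obtain ⟨q, rfl⟩ : ∃ q, p = q + 1 := ⟨p - 1, by omega⟩
      rw [Nat.add_sub_cancel]
      ring
    rw [h2, hz, one_pow]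
  have h2 : ((g⁻¹ : (Matrix (Fin n) (Fin n) F)ˣ) : Matrix (Fin n) (Fin n) F) =
      diagonal (fun i => z ^ ((p - 1) * d i)) := by
    calc ((g⁻¹ : (Matrix (Fin n) (Fin n) F)ˣ) : Matrix (Fin n) (Fin n) F)
        = ((g⁻¹ : (Matrix (Fin n) (Fin n) F)ˣ) : Matrix (Fin n) (Fin n) F) *
          ((g : Matrix (Fin n) (Fin n) F) * diagonal (fun i => z ^ ((p - 1) * d i))) := by
            rw [h1, Matrix.mul_one]
      _ = diagonal (fun i => z ^ ((p - 1) * d i)) := by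
            rw [← Matrix.mul_assoc, Units.inv_mul, Matrix.one_mul]
  refine ⟨⟨⟨fun i j => ?_, fun i j => ?_⟩, ?_⟩, ?_⟩
  · rw [hg]
    exact diag_mem R (fun i => hpow _) i j
  · rw [h2]
    exact diag_mem R (fun i => hpow _) i j
  · rw [hg, diagonal_conjTranspose, diagonal_mul_diagonal, diagonal_mul_diagonal]
    congr 1
    funext i
    rw [Pi.star_apply, star_pow, mul_right_comm, ← mul_pow, hzs, one_pow, one_mul]
  · obtain ⟨c, hc⟩ := hd
    rw [hg, det_diagonal, Finset.prod_pow_eq_pow_sum, hc, pow_mul, hz, one_pow]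

theorem exm : S_EXM := by
  refine ⟨?_, ?_, ?_⟩
  · intro F _ R n ℓ f hodd _ hf
    exact ⟨fun g d hd _ hg => sog_sign R f g d (even_iff_two_dvd.2 hd) hg,
      fun g hg => sog_cyc R f hodd hf g hg⟩
  · intro F _ _ R z p n ℓ h hzR hz hzs hp hodd _ hf
    refine ⟨fun g d hd _ hg => sug_diag R h hzR hz hzs hp g d hd hg, fun g hg => ?_⟩
    refine ⟨ug_cyc R h hodd.pos hf g hg, ?_⟩
    obtain ⟨σ, h1, h2, h3⟩ := hg
    rw [h3, det_permutation, sign_one hodd h1 h2]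
    simp
  · intro F _ _ R n ℓ h hℓ _ hf
    exact ⟨fun g d _ _ hg => ug_sign R h g d hg, fun g hg => ug_cyc R h hℓ hf g hg⟩

end Pool.Agent.E8helper35.ZB
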